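import Pool.Agent.helper45.SGK.Spec

/-!
# Project SGK (MP_069684_lc), row NFI (helper16): the normal form is invariant
-/

set_option autoImplicit false

namespace Pool.Agent.SGK

open Finset Pool.Agent.helper38.Neg Pool.Agent.helper55.NT
open Pool.Agent.SGC (Sg SCirc Ext Mv hw RN Solv stA stB)

theorem NFI_rt {t : ℕ} (st : Fr t) (q : Fin (t + 1)) (h : st q q ≠ none) :
    st (rt st q) q ≠ none ∧ ∀ p, st p q ≠ none → rt st q ≤ p := by
  have hex : ∃ p, st p q ≠ none := ⟨q, h⟩
  unfold rt
  rw [dif_pos hex]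
  exact ⟨Fin.find_spec hex, fun p hp => Fin.find_le_of_pos hex hp⟩

theorem NFI_eq {t : ℕ} (st st' : Fr t) (q q' : Fin (t + 1)) (h : st q q ≠ none) (h' : st' q' q' ≠ none)
    (he : ∀ p, st p q ≠ none ↔ st' p q' ≠ none) : rt st q = rt st' q' := by
  obtain ⟨a1, a2⟩ := NFI_rt st q h
  obtain ⟨b1, b2⟩ := NFI_rt st' q' h'
  exact le_antisymm (a2 _ ((he _).2 b1)) (b2 _ ((he _).1 a1))

theorem NFI_con {t : ℕ} (st : Fr t) (hF : IsFr st) (q q' : Fin (t + 1)) (h : st q q' ≠ none) : rt st q = rt st q' := by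
  obtain ⟨f1, f2, f3⟩ := hF
  refine NFI_eq st st q q' (by rw [f1]; simp) (by rw [f1]; simp) fun p => ?_
  obtain ⟨v, hv⟩ := Option.ne_none_iff_exists'.1 h
  constructor
  · intro h1
    obtain ⟨u, hu⟩ := Option.ne_none_iff_exists'.1 h1
    rw [f3 p q q' u v hu hv]
    simp
  · intro h1
    obtain ⟨u, hu⟩ := Option.ne_none_iff_exists'.1 h1
    rw [f3 p q' q u v hu (f2 _ _ _ hv)]
    simp

theorem NFI_z (a b : ZMod 2) : a + b + b = a := by
  revert a b
  decide

theorem NFI_shf {k : ℕ} (R : Finset (Wd k)) (d z : Wd k) : z ∈ shf R d ↔ z + d ∈ R := by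
  unfold shf
  rw [mem_filter]
  exact ⟨fun h => h.2, fun h => ⟨mem_univ _, h⟩⟩

theorem NFI (hRIG : RIG_stmt) (hLAB : LAB_stmt) (hFRA : FRA_stmt) : NFI_stmt := by
  intro k _ cr P n x L γ hP hcr hL
  obtain ⟨hI, hE, hg⟩ := hFRA k cr P n x L hcr
  have hg := hg γ
  obtain ⟨hrel, -⟩ := hLAB k cr P n γ x hcr
  set st := frs cr P x L with hst
  set st' := frs cr P (x ∘ gl γ) L with hst'
  obtain ⟨f1, f2, f3⟩ := id hI
  have hst1 : ∀ p q, st' p q ≠ none ↔ st p q ≠ none := by
    intro p q
    rw [hg]
    simp only [ne_eq, Option.map_eq_none_iff]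
  have hrt : ∀ q, rt st' q = rt st q := by
    intro q
    refine NFI_eq st' st q q ((hst1 q q).2 (by rw [f1]; simp)) (by rw [f1]; simp) fun p => hst1 p q
  refine ⟨hrt, ?_⟩
  have hnu : ∀ q : Fin (tw k n), nu st' q = nu st q + gh γ (rt st q.succ) + γ q := by
    intro q
    unfold nu
    obtain ⟨a1, -⟩ := NFI_rt st q.succ (by rw [f1]; simp)
    obtain ⟨v, hv⟩ := Option.ne_none_iff_exists'.1 a1
    have e1 : st' (rt st' q.succ) q.succ = some (v + gh γ (rt st q.succ) + gh γ q.succ) := by
      rw [hrt, hg]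
      simp only [hv, Option.map_some]
    rw [e1, hv, Option.getD_some, Option.getD_some]
    rfl
  funext p
  unfold nf
  by_cases h : ∃ c : Cl k (tw k n), ps c = p
  · rw [dif_pos h, dif_pos h, decide_eq_decide]
    generalize h.choose = c
    obtain ⟨i, a⟩ := c
    set R := rel P x i with hR
    set u : Wd k := fun j => gh γ (rt st (i j).succ) with hu
    have hPer : Per R u := by
      refine hRIG k P (sg x i) u hP fun j J hd => ?_
      have hlab : lab cr P x (i, j, J) ≠ none := by
        have hd' : ∀ d, Per (rel P x ((i, j, J) : Es k (tw k n)).1) d → oc d (some ((i, j, J) : Es k (tw k n)).2.1) = oc d ((i, j, J) : Es k (tw k n)).2.2 := hd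
        unfold lab
        rw [if_pos hd']
        simp
      have h1 := hE (i, j, J) (hL _) hlab
      have h2 : rt st (i j).succ = rt st (ov i J) := NFI_con st hI _ _ h1
      have h3 : oc u (some j) = gh γ (rt st (ov i J)) := by
        change gh γ (rt st (i j).succ) = _
        rw [h2]
      rw [h3]
      rcases J with _ | j'
      · have h4 : rt st (ov i (none : Option (Fin k))) = 0 := by
          obtain ⟨-, b2⟩ := NFI_rt st 0 (by rw [f1]; simp)
          have h5 := b2 0 (by rw [f1]; simp)
          have h6 : rt st 0 = 0 := le_antisymm h5 (Fin.zero_le _)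
          exact h6
        rw [h4]
        rfl
      · rfl
    have hmem : ∀ z : Wd k, z ∈ R ↔ z + u ∈ R := by
      intro z
      have h1 : shf R u = R := hPer
      constructor
      · intro hz
        rw [← h1] at hz
        exact (NFI_shf R u z).1 hz
      · intro hz
        rw [← h1]
        exact (NFI_shf R u z).2 hz
    have hrel' : rel P (x ∘ gl γ) i = shf R (γ ∘ i) := hrel i
    change (∀ z ∈ rel P (x ∘ gl γ) i, (fun j => z j + nu st' (i j) + a j) ∈ P) ↔ ∀ z ∈ R, (fun j => z j + nu st (i j) + a j) ∈ P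
    rw [hrel']
    have hz2 : ∀ a b c d e f : ZMod 2, a + c + b + (d + c + b) + e = a + d + e := by decide
    constructor
    · intro H z hz
      have h1 : z + u ∈ R := (hmem z).1 hz
      have h2 : z + u + γ ∘ i ∈ shf R (γ ∘ i) := by
        rw [NFI_shf]
        have e1 : z + u + γ ∘ i + γ ∘ i = z + u := funext fun j => NFI_z _ _
        rw [e1]
        exact h1
      have h3 := H _ h2
      have e2 : (fun j => (z + u + γ ∘ i) j + nu st' (i j) + a j) = fun j => z j + nu st (i j) + a j := by
        funext j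
        rw [hnu]
        exact hz2 _ _ _ _ _ 0
      rw [e2] at h3
      exact h3
    · intro H z hz
      rw [NFI_shf] at hz
      have h1 := H _ ((hmem _).1 hz)
      have e2 : (fun j => z j + nu st' (i j) + a j) = fun j => (z + γ ∘ i + u) j + nu st (i j) + a j := by
        funext j
        rw [hnu]
        have hz3 : ∀ a b c d e : ZMod 2, a + (d + c + b) + e = a + b + c + d + e := by decide
        exact hz3 _ _ _ _ _
      rw [e2]
      exact h1
  · rw [dif_neg h, dif_neg h]

end Pool.Agent.SGK
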